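import Pool.Agent.Helper11.M3.GoalsA
import Pool.Agent.Helper82.PW.WTRV
import Pool.Agent.Helper85.PW.NGRP
import Pool.Agent.Helper16.PW.NALG
import Pool.Agent.Helper94.PW.NEVL

/-!
# Project M3 (MP_fc6b1e_nt), packet M3-A_ZKX: the functionals of a `TauX` kill the `p`-th powers
-/

set_option autoImplicit false

namespace Pool.Agent.Helper25.M3

open NumberField Polynomial Module IsDedekindDomain
open Pool.Agent.Helper51.RP Pool.Agent.Helper42.RD Pool.Agent.Helper42.PP Pool.Agent.Helper42.PP1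
open Pool.Agent.Helper42.PB Pool.Agent.Helper42.PW Pool.Agent.Helper11.PP
open Pool.Agent.Helper76.PP Pool.Agent.Helper76.PB
open Pool.Agent.Helper38.WY (TauX SigT cjs)
open Pool.Agent.Helper11.M3

/-- A `p`-th power satisfies the condition `SigT`. -/
theorem sigT_pow (p : ℕ) [hp : Fact p.Prime] {F : Type} [Field F] (τ : F →+* ℂ_[p]) (ε α w : F) :
    SigT p τ ε α (w ^ p) := by
  have hp0 : p ≠ 0 := hp.out.ne_zero
  obtain ⟨β, hβ⟩ := IsAlgClosed.exists_pow_nat_eq (τ α) (Nat.pos_of_ne_zero hp0)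
  have hc : ∀ i, cjs p (τ ε) β (fun j => if j = 0 then τ w else 0) i = τ w := by
    intro i
    unfold cjs
    rw [Finset.sum_eq_single_of_mem 0 (Finset.mem_range.2 (Nat.pos_of_ne_zero hp0))]
    · simp
    · intro j _ hj
      simp [hj]
  refine ⟨β, fun j => if j = 0 then τ w else 0, 1, hβ, fun j => ?_, one_pos, ?_, fun i => ?_⟩
  · by_cases hj : j = 0
    · simp only [hj, if_true]
      exact subset_closure ⟨w, rfl⟩
    · simp only [hj, if_false]
      exact subset_closure ⟨0, map_zero τ⟩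
  · rw [Finset.prod_congr rfl fun i _ => hc i, Finset.prod_const, Finset.card_range, map_pow]
  · rw [hc, hc]

theorem a_zkx : A_ZKX := by
  intro p hp K M K₁ M₁ _ _ _ _ _ _ _ _ _ _ _ _ _ ε δ P B M₂ _ _ _ _ _ a₀ T aτ n E y hyP hyw j
  have hp0 : p ≠ 0 := hp.out.ne_zero
  have hG : N_GRP := Pool.Agent.Helper85.PW.n_grp
    (Pool.Agent.Helper16.PW.n_alg Pool.Agent.Helper94.PW.n_evl)
  obtain ⟨w, hw⟩ := hyw
  have hw0 : w ≠ 0 := by
    rintro rfl
    rw [zero_pow hp0] at hw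
    exact y.ne_zero ((map_eq_zero_iff _ (algebraMap M M₂).injective).1 hw.symm)
  have hα : (a₀ : M₂) * algebraMap K₁ M₂ (aτ : K₁) ≠ 0 :=
    mul_ne_zero a₀.ne_zero ((_root_.map_ne_zero _).2 aτ.ne_zero)
  refine E.hS j y hyP (fun W _ => ?_) (fun τ _ => ?_)
  · have h := Pool.Agent.Helper82.PW.locW_pow (p := p) (W := W) hG hα (Units.mk0 w hw0)
    rw [Units.val_pow_eq_pow_val, Units.val_mk0, hw] at h
    exact h
  · rw [← hw]
    exact sigT_pow p τ _ _ w

end Pool.Agent.Helper25.M3
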